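import Pool.Agent.W872.SP.Final

/-!
# Quotients of supercompact Prikry forcing with large antichains

Assume the generalised continuum hypothesis.  Let `κ ≤ μ` be cardinals with `κ ≤ cf(μ)` (for example
`μ = κ`), let `λ = μ⁺` and let `U` be any fine normal measure on `P_κ(λ)`.  There is a complete
subalgebra `B` of the Boolean completion of the supercompact Prikry forcing `P_U` such that, if `G` is
generic for `P_U` and `H = G ∩ B`, some condition forces that `P_U/H` has an antichain of size `λ⁺`
in `V[G]`.
-/

namespace Pool.Agent.Results.MP_60f81f_lc.QuotientAntichain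

open Cardinal Pool.Agent.W872.SP

theorem result (hG : GCH) (κ μ : Cardinal.{0}) (hκμ : κ ≤ μ) (hcof : κ ≤ μ.ord.cof)
    (U : Ultrafilter (PK κ (Order.succ μ).ord.ToType)) (hU : FineNormal κ U) :
    ∃ B : Set (Set (Cond κ U)), CompleteSubalgebra B ∧
      HasAntichain (fun (p : Cond κ U) b => p ∈ b) B (Order.succ (Order.succ μ)) :=
  antichain_of_gch hG (typeLT_toType _) (mk_toType _) hκμ hcof hU

end Pool.Agent.Results.MP_60f81f_lc.QuotientAntichain
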