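import Pool.Agent.W872.SP.InVH

/-!
# In the intermediate extension the quotient satisfies the chain condition

Assume the generalised continuum hypothesis.  For every regular `λ > κ`, every fine normal measure `U`
on `P_κ(λ)` and every complete subalgebra `B` of the Boolean completion of `P_U`, the forcing `B`
forces that the quotient `P_U/H` has no antichain of size `λ⁺` in `V[H]`.
-/

namespace Pool.Agent.Results.MP_60f81f_lc.QuotientInVH

open Cardinal Pool.Agent.W872.SP

theorem result (hG : GCH) (κ lam : Cardinal.{0}) (hκ : κ < lam) (hlam : lam.IsRegular)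
    (U : Ultrafilter (PK κ lam.ord.ToType)) (hU : FineNormal κ U)
    (B : Set (Set (Cond κ U))) (hB : CompleteSubalgebra B) :
    ¬ HasAntichain (fun (c : Pos B) b => c.1 ⊆ b) B (Order.succ lam) :=
  no_antichain_inVH hG κ lam hκ hlam U hU B hB

end Pool.Agent.Results.MP_60f81f_lc.QuotientInVH
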